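import Pool.Agent.R21.EQ.Fin
import Pool.Agent.R21.EQ.Min
import Pool.Agent.R21.EQ.Four
import Pool.Agent.R21.EQ.Sad
import Pool.Agent.R21.EQ.Mom
import Pool.Agent.R21.EQ.Gau
import Pool.Agent.R21.EQ.Loc
import Pool.Agent.R21.EQ.Cen
import Pool.Agent.R21.EQ.Row
import Pool.Agent.R21.EQ.Sum4
import Pool.Agent.R21.EQ.Qua
import Pool.Agent.R21.EQ.Pert
import Pool.Agent.R21.EQ.Sec
import Pool.Agent.R21.EQ.Lam
import Pool.Agent.R21.EQ.Ubd
import Pool.Agent.R21.EQ.Dec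

/-!
# MP_a28f5d_nt, Q1: the negated form

For `(p, q) = (3, 4)` the equality `f (n + 1) = f n` fails for all large `n`.
-/

namespace Pool.Agent.Results.MP_a28f5d_nt.NeverEqualThreeFour

/-- The set `{p ^ a * q ^ b : a, b ≥ 0}`. -/
def S (p q : ℕ) : Set ℕ := {t | ∃ a b : ℕ, t = p ^ a * q ^ b}

/-- `f p q n`: the number of finite subsets of `S p q` with sum `n`. -/
noncomputable def f (p q n : ℕ) : ℕ :=
  Set.ncard {T : Finset ℕ | (T : Set ℕ) ⊆ S p q ∧ ∑ t ∈ T, t = n}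

/-- There are coprime `q > p > 2`, namely `(p, q) = (3, 4)`, and an `N` such that
`f p q (n + 1) ≠ f p q n` for every `n ≥ N`. -/
theorem result : ∃ p q : ℕ, Nat.Coprime p q ∧ 2 < p ∧ p < q ∧ p = 3 ∧ q = 4 ∧
    ∃ N : ℕ, ∀ n ≥ N, f p q (n + 1) ≠ f p q n := by
  have hGau := Pool.Agent.R764.EQG.gau
  have hMom1 := Pool.Agent.R21.EQ.Mom.mom1
  have hRow := Pool.Agent.R21.EQ.RowP.row
  have hSum4 := Pool.Agent.R21.EQ.S4.sum4_of hRow
  have hSix := Pool.Agent.R21.EQ.S4.six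
  have hQua := Pool.Agent.R21.EQ.qua_of hMom1
  have hHalf := Pool.Agent.R21.EQ.half_of hMom1
  have hLam := Pool.Agent.R21.EQ.lam
  have hUbd := Pool.Agent.R359.EQ.ubd_of hSum4
  have hVbd := Pool.Agent.R359.EQ.vbd_of hUbd hQua
  have hVsm := Pool.Agent.R359.EQ.vsm_of hQua hSix hLam
  have hKbd := Pool.Agent.R359.EQC.kbd_of hGau
  have hK1 := Pool.Agent.R359.EQC.k1_of hGau
  have hP0 := Pool.Agent.R359.EQC.p0_of hGau Pool.Agent.R764.EQL.loc Pool.Agent.R21.EQ.Mom.mom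
  have hMin := Pool.Agent.R21.EQ.min_of Pool.Agent.R21.EQ.dec hUbd hVbd hVsm hKbd hHalf hLam
  exact ⟨3, 4, by decide, by norm_num, by norm_num, rfl, rfl,
    Pool.Agent.R21.EQ.fin_of Pool.Agent.R21.EQ.four Pool.Agent.R21.EQ.sad hMin hP0 hK1 hGau hQua
      (Pool.Agent.R21.EQ.pert_of hMom1) Pool.Agent.R21.EQ.SecP.sec hLam⟩

end Pool.Agent.Results.MP_a28f5d_nt.NeverEqualThreeFour
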