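import Mathlib
import Pool.Agent.R398.DS.Final

/-!
# MP_a28f5d_nt: the pair `(3, 5)`

`f p q n` is the number of finite sets of numbers `p^a q^b` (`a, b ≥ 0`) with sum `n`. We prove that for all large `k`

  `f 3 5 (3k) > f 3 5 (3k+1) > f 3 5 (3k+2) < f 3 5 (3k+3)`.

So `f 3 5 (n+1) ≠ f 3 5 n` for all large `n`, and the answer to the question (whether for all coprime `q > p > 2` the
equality `f p q (n+1) = f p q n` has infinitely many solutions) is negative.

The proof: `(f(n) - f(n+1)) e^{-σn} / F_0` is the integral over a period of `Ψ(θ) e(-nθ) (1 - e^σ e(-θ))`, where `Ψ` is the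
normalised generating function at `exp(-σ + 2πiθ)`, and `σ` is the saddle point for the factors divisible by `3`.
* Away from `(1/3)ℤ` (at distance `≥ Kσ`) the integral of `|Ψ|` is `O(σ^{1+γ})` with `γ > log 2 / log 5`: a transfer
  operator argument for `θ ↦ 9θ`; the product of the factors `5^b, 3·5^b` is at most
  `sup |cos πy cos 3πy cos 5πy cos 15πy| + small ≤ 0.378` for `y` at distance at least `1/10` from `ℤ`, and it is
  tiny at all but one of the nine preimages, so that each step gains `0.38 · 9^γ < 1`.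
* Around `0` the integral is `O(σ²)`.
* Around `±1/3` it is `2 Re (c · ω^{-n} (1 - ω̄)) · M`, up to a smaller error, with `M ≍ σ / √(log 1/σ)` and `|c| ≫ 2^{-ℓ}`
  (`5^ℓ ≤ 1/σ`), where the argument of `c` is an alternating sum which lies strictly between `0` and `π/3`.
-/

namespace Pool.Agent.Results.MP_a28f5d_nt.SignPatternThreeFive

/-- `f p q n`: the number of finite sets `T` of numbers of the form `p^a q^b` (`a, b ≥ 0`) with sum `n`. -/
noncomputable def f (p q n : ℕ) : ℕ :=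
  Set.ncard {T : Finset ℕ | (∀ t ∈ T, ∃ a b : ℕ, t = p ^ a * q ^ b) ∧ ∑ t ∈ T, t = n}

/-- * The family of sets counted by `f p q n` is finite for positive `p, q`, so `f p q n` is the true number.
* For all large `k`: `f 3 5 (3k) > f 3 5 (3k+1) > f 3 5 (3k+2) < f 3 5 (3k+3)`.
* There are coprime `q > p > 2` and an `N` with `f p q (n+1) ≠ f p q n` for all `n ≥ N`.
* It is not true that for all coprime `q > p > 2` there are infinitely many positive `n` with
  `f p q (n+1) = f p q n`. -/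
theorem result :
    (∀ p q n : ℕ, 0 < p → 0 < q →
      {T : Finset ℕ | (∀ t ∈ T, ∃ a b : ℕ, t = p ^ a * q ^ b) ∧ ∑ t ∈ T, t = n}.Finite) ∧
    (∃ N : ℕ, ∀ k : ℕ, N ≤ k → f 3 5 (3 * k + 1) < f 3 5 (3 * k) ∧ f 3 5 (3 * k + 2) < f 3 5 (3 * k + 1) ∧
      f 3 5 (3 * k + 2) < f 3 5 (3 * k + 3)) ∧
    (∃ p q : ℕ, Nat.Coprime p q ∧ 2 < p ∧ p < q ∧ ∃ N : ℕ, ∀ n : ℕ, N ≤ n → f p q (n + 1) ≠ f p q n) ∧
    ¬ (∀ p q : ℕ, Nat.Coprime p q → 2 < p → p < q → {n : ℕ | 0 < n ∧ f p q (n + 1) = f p q n}.Infinite) := by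
  have hmain : ∃ N : ℕ, ∀ n : ℕ, N ≤ n →
      (n % 3 = 0 → f 3 5 (n + 1) < f 3 5 n) ∧
      (n % 3 = 1 → f 3 5 (n + 1) < f 3 5 n) ∧
      (n % 3 = 2 → f 3 5 n < f 3 5 (n + 1)) := R398.DS.main_signs
  obtain ⟨N, hN⟩ := hmain
  have hne : ∀ n : ℕ, N ≤ n → f 3 5 (n + 1) ≠ f 3 5 n := by
    intro n hn
    have h := hN n hn
    have h3 : n % 3 = 0 ∨ n % 3 = 1 ∨ n % 3 = 2 := by omega
    rcases h3 with h0 | h0 | h0
    · exact (h.1 h0).ne
    · exact (h.2.1 h0).ne
    · exact (h.2.2 h0).ne'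
  refine ⟨?_, ⟨N, ?_⟩, ⟨3, 5, by decide, by norm_num, by norm_num, N, hne⟩, ?_⟩
  · intro p q n hp hq
    apply Set.Finite.subset (Finset.finite_toSet (Finset.range (n + 1)).powerset)
    intro T hT
    obtain ⟨h1, h2⟩ := hT
    rw [Finset.mem_coe, Finset.mem_powerset]
    intro t ht
    rw [Finset.mem_range]
    have : t ≤ ∑ t ∈ T, t := Finset.single_le_sum (f := fun t => t) (fun _ _ => Nat.zero_le _) ht
    omega
  · intro k hk
    refine ⟨(hN (3 * k) (by omega)).1 (by omega), (hN (3 * k + 1) (by omega)).2.1 (by omega),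
      (hN (3 * k + 2) (by omega)).2.2 (by omega)⟩
  · intro h
    have h35 := h 3 5 (by decide) (by norm_num) (by norm_num)
    apply h35
    apply Set.Finite.subset (Set.finite_Iio N)
    intro n hn
    rw [Set.mem_Iio]
    by_contra hc
    push Not at hc
    exact hne n hc hn.2

end Pool.Agent.Results.MP_a28f5d_nt.SignPatternThreeFive
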